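import Pool.Agent.PQP.StmtsN

/-! Squad PQP, row GRA: `∫ |grad ψ|² f ≤ C / t`. -/

set_option autoImplicit false

open scoped InnerProductSpace Topology ContDiff Manifold
open MeasureTheory Filter Set

noncomputable section

namespace Pool.Agent.PQP.H20

open Pool.Agent.Helper42_Paneitz Pool.Agent.Helper82_Vir Pool.Agent.FLX

theorem gra (vir : VirStmt) (wtl : WtlStmt) : GraStmt := by
  intro ψ hψ
  have hV : SmV (gd ψ) := smV_gd hψ
  have htan : ∀ x : S4, ⟪(x : E5), gd ψ x⟫_ℝ = 0 := fun x => by rw [inner_gd, dd_self hψ]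
  obtain ⟨L, hL0, hL⟩ := smV_lipschitz hV
  obtain ⟨M, hM⟩ := isCompact_univ.exists_bound_of_continuousOn (continuous_dv hV).continuousOn
  obtain ⟨x0⟩ : Nonempty S4 := ⟨⟨ee 0, mem_sphere_zero_iff_norm.2 (norm_ee 0)⟩⟩
  have hM0 : 0 ≤ M := le_trans (norm_nonneg _) (hM x0 (mem_univ _))
  refine ⟨M + 4 * L + 1, by positivity, fun t f ht hf => ?_⟩
  obtain ⟨h1, h2, -⟩ := wtl ψ hψ
  obtain ⟨hfc, hf0, hf1⟩ := hf.1
  have hv := vir (Wt ψ t) f (gd ψ) (h2 t).1 (h2 t).2 hf hV htan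
  -- the left side
  have hcV : Continuous fun x => ‖gd ψ x‖ ^ 2 * f x := (hV.continuous.norm.pow 2).mul hfc
  have hcD : Continuous fun x => dv (gd ψ) x * f x := (continuous_dv hV).mul hfc
  have hleft : ∫ x, (dlog (Wt ψ t) x (gd ψ x) + dv (gd ψ) x) * f x ∂sig =
      -(t * ∫ x, ‖gd ψ x‖ ^ 2 * f x ∂sig) + ∫ x, dv (gd ψ) x * f x ∂sig := by
    have hi1 : Integrable (fun x => -(t * (‖gd ψ x‖ ^ 2 * f x))) sig :=
      ((integrable_cont hcV).const_mul t).neg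
    rw [← integral_const_mul, ← integral_neg, ← integral_add hi1 (integrable_cont hcD)]
    refine integral_congr_ae (Eventually.of_forall fun x => ?_)
    change (dlog (Wt ψ t) x (gd ψ x) + dv (gd ψ) x) * f x =
      -(t * (‖gd ψ x‖ ^ 2 * f x)) + dv (gd ψ) x * f x
    rw [h1, dd_gd]
    ring
  have hfi : Integrable f sig := integrable_cont hfc
  have hdv : ∫ x, dv (gd ψ) x * f x ∂sig ≤ M := by
    have h3 : ‖∫ x, dv (gd ψ) x * f x ∂sig‖ ≤ ∫ x, M * f x ∂sig := by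
      refine norm_integral_le_of_norm_le (hfi.const_mul M) (Eventually.of_forall fun x => ?_)
      rw [norm_mul, Real.norm_of_nonneg (hf0 x).le]
      exact mul_le_mul_of_nonneg_right (hM x (mem_univ _)) (hf0 x).le
    rw [integral_const_mul, hf1, mul_one] at h3
    exact le_trans (le_abs_self _) h3
  -- the right side
  have hq : ∀ x y : S4, |⟪gd ψ x - gd ψ y, (x : E5) - (y : E5)⟫_ℝ /
      ‖(x : E5) - (y : E5)‖ ^ 2| ≤ L := by
    intro x y
    rw [abs_div, abs_of_nonneg (sq_nonneg ‖(x : E5) - (y : E5)‖)]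
    refine div_le_of_le_mul₀ (sq_nonneg _) hL0 ?_
    refine (abs_real_inner_le_norm _ _).trans ?_
    calc ‖gd ψ x - gd ψ y‖ * ‖(x : E5) - (y : E5)‖
        ≤ L * ‖(x : E5) - (y : E5)‖ * ‖(x : E5) - (y : E5)‖ :=
          mul_le_mul_of_nonneg_right (hL x y) (norm_nonneg _)
      _ = L * ‖(x : E5) - (y : E5)‖ ^ 2 := by ring
  have hin : ∀ x : S4, ‖∫ y, ⟪gd ψ x - gd ψ y, (x : E5) - (y : E5)⟫_ℝ /
      ‖(x : E5) - (y : E5)‖ ^ 2 * (f x * f y) ∂sig‖ ≤ L * f x := by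
    intro x
    have h3 : ‖∫ y, ⟪gd ψ x - gd ψ y, (x : E5) - (y : E5)⟫_ℝ /
        ‖(x : E5) - (y : E5)‖ ^ 2 * (f x * f y) ∂sig‖ ≤ ∫ y, L * f x * f y ∂sig := by
      refine norm_integral_le_of_norm_le (hfi.const_mul (L * f x))
        (Eventually.of_forall fun y => ?_)
      rw [norm_mul, Real.norm_of_nonneg (mul_pos (hf0 x) (hf0 y)).le, mul_assoc]
      exact mul_le_mul_of_nonneg_right (hq x y) (mul_pos (hf0 x) (hf0 y)).le
    rwa [integral_const_mul, hf1, mul_one] at h3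
  have hout : ‖∫ x, ∫ y, ⟪gd ψ x - gd ψ y, (x : E5) - (y : E5)⟫_ℝ /
      ‖(x : E5) - (y : E5)‖ ^ 2 * (f x * f y) ∂sig ∂sig‖ ≤ L := by
    have h3 := norm_integral_le_of_norm_le (hfi.const_mul L) (Eventually.of_forall hin)
    rwa [integral_const_mul, hf1, mul_one] at h3
  rw [hleft] at hv
  have h4 := neg_abs_le (∫ x, ∫ y, ⟪gd ψ x - gd ψ y, (x : E5) - (y : E5)⟫_ℝ /
      ‖(x : E5) - (y : E5)‖ ^ 2 * (f x * f y) ∂sig ∂sig)
  rw [Real.norm_eq_abs] at hout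
  rw [le_div_iff₀ ht]
  linarith

end Pool.Agent.PQP.H20
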