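import Pool.Agent.PQP.StmtsN

/-! Squad PQP, row HYF: the hyperbolic field from `w` to `N`. -/

set_option autoImplicit false

open scoped InnerProductSpace Topology ContDiff Manifold
open MeasureTheory Filter Set

noncomputable section

namespace Pool.Agent.PQP.H20

open Pool.Agent.Helper42_Paneitz Pool.Agent.Helper82_Vir Pool.Agent.FLX

/-- the Laplacian of a product -/
theorem lap_mul {p q : S4 → ℝ} (hp : Sm p) (hq : Sm q) (x : S4) :
    sphLaplacian (fun z => p z * q z) x =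
      p x * sphLaplacian q x + q x * sphLaplacian p x +
        2 * ∑ i : Fin 5, dd p x (ee i) * dd q x (ee i) := by
  rw [sphLaplacian_eq (sm_mul hp hq), sphLaplacian_eq hp, sphLaplacian_eq hq]
  have h : ∀ i : Fin 5, dd (fun z => dd (fun z => p z * q z) z (ee i)) x (ee i) =
      p x * dd (fun z => dd q z (ee i)) x (ee i) + q x * dd (fun z => dd p z (ee i)) x (ee i) +
        2 * (dd p x (ee i) * dd q x (ee i)) := by
    intro i
    have h1 : (fun z => dd (fun z => p z * q z) z (ee i)) =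
        fun z => p z * dd q z (ee i) + q z * dd p z (ee i) := by
      funext z
      exact dd_mul hp hq z _
    rw [h1, dd_fun_add (sm_mul hp (sm_dd hq _)) (sm_mul hq (sm_dd hp _)), dd_mul hp (sm_dd hq _),
      dd_mul hq (sm_dd hp _)]
    ring
  rw [Finset.sum_congr rfl fun i _ => h i, Finset.sum_add_distrib, Finset.sum_add_distrib,
    ← Finset.mul_sum, ← Finset.mul_sum, ← Finset.mul_sum]

theorem sum_inn (a b : E5) : ∑ i : Fin 5, a i * b i = ⟪a, b⟫_ℝ := by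
  conv_rhs => rw [← sum_ee a]
  rw [sum_inner]
  refine Finset.sum_congr rfl fun i _ => ?_
  rw [real_inner_smul_left, inner_ee']

theorem sm_osi (a : E5) : Sm (fun x : S4 => 1 - ⟪a, (x : E5)⟫_ℝ) := sm_sub (sm_const 1) (sm_inner a)

theorem dd_osi (a : E5) (x : S4) (v : E5) :
    dd (fun z : S4 => 1 - ⟪a, (z : E5)⟫_ℝ) x v = ⟪a, (x : E5)⟫_ℝ * ⟪(x : E5), v⟫_ℝ - ⟪a, v⟫_ℝ := by
  rw [dd_fun_sub (sm_const 1) (sm_inner a), dd_const, dd_inner]
  ring

/-- the Laplacian of `1 - <a, x>` -/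
theorem lap_osi (a : E5) (x : S4) :
    sphLaplacian (fun z : S4 => 1 - ⟪a, (z : E5)⟫_ℝ) x = 4 * ⟪a, (x : E5)⟫_ℝ := by
  rw [sphLaplacian_eq (sm_osi a)]
  have h : ∀ i : Fin 5, dd (fun z => dd (fun z : S4 => 1 - ⟪a, (z : E5)⟫_ℝ) z (ee i)) x (ee i) =
      a i * (x : E5) i - 2 * ⟪a, (x : E5)⟫_ℝ * ((x : E5) i * (x : E5) i) + ⟪a, (x : E5)⟫_ℝ := by
    intro i
    have h1 : (fun z => dd (fun z : S4 => 1 - ⟪a, (z : E5)⟫_ℝ) z (ee i)) =
        fun z : S4 => ⟪a, (z : E5)⟫_ℝ * ⟪ee i, (z : E5)⟫_ℝ - a i := by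
      funext z
      rw [dd_osi, inner_ee, inner_ee, inner_ee']
    rw [h1, dd_fun_sub (sm_mul (sm_inner a) (sm_inner _)) (sm_const _), dd_const,
      dd_mul (sm_inner a) (sm_inner _), dd_inner, dd_inner, inner_ee, inner_ee, inner_ee',
      inner_ee a]
    have h2 : (ee i) i = (1 : ℝ) := by simp
    rw [h2]
    ring
  rw [Finset.sum_congr rfl fun i _ => h i, Finset.sum_add_distrib, Finset.sum_sub_distrib,
    ← Finset.mul_sum, Finset.sum_const, Finset.card_univ, Fintype.card_fin]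
  have h3 := sum_inn a (x : E5)
  have h4 : ∑ i : Fin 5, (x : E5) i * (x : E5) i = 1 := by
    rw [sum_inn, real_inner_self_eq_norm_sq, S4_norm]
    norm_num
  rw [h3, h4, nsmul_eq_mul]
  push_cast
  ring

theorem hyf (dil : DilStmt) : HyfStmt := by
  intro ψ N w hψ
  have hww : ⟪(w : E5), (w : E5)⟫_ℝ = 1 := by rw [real_inner_self_eq_norm_sq, S4_norm]; norm_num
  have key : ∀ x : S4, dd ψ x (cf ((N : E5) - (w : E5)) (An (w : E5) (N : E5)) x) =
      - ((1 - ⟪(N : E5), (x : E5)⟫_ℝ) * dd ψ x (w : E5)) +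
        (1 - ⟪(w : E5), (x : E5)⟫_ℝ) * dd ψ x (N : E5) := by
    intro x
    unfold cf
    rw [An_apply, dd_add, dd_sub, dd_sub, dd_sub, dd_smul, dd_smul, dd_smul, dd_self hψ]
    ring
  obtain ⟨d1, d2, d3⟩ := dil ψ w hψ
  have hfun : (fun x => dd ψ x (cf ((N : E5) - (w : E5)) (An (w : E5) (N : E5)) x)) =
      fun x : S4 => - ((1 - ⟪(N : E5), (x : E5)⟫_ℝ) * dd ψ x (w : E5)) +
        (1 - ⟪(w : E5), (x : E5)⟫_ℝ) * dd ψ x (N : E5) := funext key
  have hp := sm_osi (N : E5)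
  have hp' := sm_osi (w : E5)
  have hq := sm_dd hψ (w : E5)
  have hq' := sm_dd hψ (N : E5)
  have hpq := sm_mul hp hq
  have hpq' := sm_mul hp' hq'
  have hN : |1 - ⟪(N : E5), (w : E5)⟫_ℝ| ≤ 2 := by
    have h1 := abs_real_inner_le_norm (N : E5) (w : E5)
    rw [S4_norm, S4_norm, mul_one, abs_le] at h1
    rw [abs_le]
    constructor <;> linarith [h1.1, h1.2]
  have hgr : ∀ v : E5, |dd ψ w v| ≤ ‖gd ψ w‖ * ‖v‖ := by
    intro v
    rw [← inner_gd, mul_comm]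
    exact abs_real_inner_le_norm _ _
  refine ⟨key, ?_, ?_, ?_⟩
  · rw [key w, d1, hww]
    ring
  · intro v
    rw [hfun, dd_fun_add (sm_neg hpq) hpq', dd_fun_neg hpq, dd_mul hp hq, dd_mul hp' hq', d1, d2,
      dd_osi (w : E5), hww]
    have h1 : -((1 - ⟪(N : E5), (w : E5)⟫_ℝ) * -dd ψ w v +
        0 * dd (fun z : S4 => 1 - ⟪(N : E5), (z : E5)⟫_ℝ) w v) +
        ((1 - 1) * dd (fun z => dd ψ z (N : E5)) w v +
          dd ψ w (N : E5) * (1 * ⟪(w : E5), v⟫_ℝ - ⟪(w : E5), v⟫_ℝ)) =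
        (1 - ⟪(N : E5), (w : E5)⟫_ℝ) * dd ψ w v := by ring
    rw [h1, abs_mul, mul_assoc]
    exact mul_le_mul hN (hgr v) (abs_nonneg _) zero_le_two
  · have hneg : sphLaplacian (fun x : S4 => -((1 - ⟪(N : E5), (x : E5)⟫_ℝ) * dd ψ x (w : E5))) w =
        - sphLaplacian (fun x : S4 => (1 - ⟪(N : E5), (x : E5)⟫_ℝ) * dd ψ x (w : E5)) w := by
      have h1 := sphLaplacian_smul (-1) hpq w
      simpa only [neg_mul, one_mul] using h1
    rw [hfun, sphLaplacian_add (sm_neg hpq) hpq', hneg, lap_mul hp hq, lap_mul hp' hq', d1, d3,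
      lap_osi (w : E5), hww]
    have h2 : ∑ i : Fin 5, dd (fun z : S4 => 1 - ⟪(N : E5), (z : E5)⟫_ℝ) w (ee i) *
        dd (fun z => dd ψ z (w : E5)) w (ee i) = dd ψ w (N : E5) := by
      have h3 : ∀ i : Fin 5, dd (fun z : S4 => 1 - ⟪(N : E5), (z : E5)⟫_ℝ) w (ee i) *
          dd (fun z => dd ψ z (w : E5)) w (ee i) =
          (N : E5) i * dd ψ w (ee i) - ⟪(N : E5), (w : E5)⟫_ℝ * ((w : E5) i * dd ψ w (ee i)) := by
        intro i
        rw [dd_osi, d2, inner_ee, inner_ee]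
        ring
      rw [Finset.sum_congr rfl fun i _ => h3 i, Finset.sum_sub_distrib, ← Finset.mul_sum,
        ← dd_eq_sum, ← dd_eq_sum, dd_self hψ]
      ring
    have h4 : ∑ i : Fin 5, dd (fun z : S4 => 1 - ⟪(w : E5), (z : E5)⟫_ℝ) w (ee i) *
        dd (fun z => dd ψ z (N : E5)) w (ee i) = 0 := by
      refine Finset.sum_eq_zero fun i _ => ?_
      rw [dd_osi, hww]
      ring
    rw [h2, h4]
    have h5 : -((1 - ⟪(N : E5), (w : E5)⟫_ℝ) * (-2 * sphLaplacian ψ w) +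
        0 * sphLaplacian (fun z : S4 => 1 - ⟪(N : E5), (z : E5)⟫_ℝ) w + 2 * dd ψ w (N : E5)) +
        ((1 - 1) * sphLaplacian (fun z => dd ψ z (N : E5)) w + dd ψ w (N : E5) * (4 * 1) + 2 * 0) -
        2 * (1 - ⟪(N : E5), (w : E5)⟫_ℝ) * sphLaplacian ψ w = 2 * dd ψ w (N : E5) := by ring
    rw [h5, abs_mul, abs_of_pos (zero_lt_two' ℝ)]
    have h6 := hgr (N : E5)
    rw [S4_norm, mul_one] at h6
    linarith

end Pool.Agent.PQP.H20
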