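import Pool.Agent.PQP.StmtsV
import Pool.Agent.Helper54_FLX.All

/-! Squad PQP, row LIPB: Lipschitz bounds of `log W` and of `log W ∘ mob b`. -/

set_option autoImplicit false

open scoped InnerProductSpace Topology ContDiff Manifold
open MeasureTheory Filter Set

noncomputable section

namespace Pool.Agent.PQP.H20

open Pool.Agent.Helper42_Paneitz Pool.Agent.Helper82_Vir Pool.Agent.FLX

theorem sm_log {W : S4 → ℝ} (hW : Sm W) (h0 : ∀ x, 0 < W x) : Sm (fun x => Real.log (W x)) := by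
  intro y hy
  have h1 : radialExt (fun x => Real.log (W x)) =ᶠ[𝓝 y] fun z => Real.log (radialExt W z) := by
    filter_upwards [eventually_ne_zero hy] with z hz
    simp only [radialExt_apply _ hz]
  refine ContDiffAt.congr_of_eventuallyEq ?_ h1
  refine ContDiffAt.log (hW y hy) ?_
  rw [radialExt_apply _ hy]
  exact (h0 _).ne'

theorem norm_sub_sq_S4 (x y : S4) :
    ‖(x : E5) - (y : E5)‖ ^ 2 = 2 * (1 - ⟪(x : E5), (y : E5)⟫_ℝ) := by
  rw [norm_sub_sq_real, S4_norm, S4_norm]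
  ring

theorem mob_dist {b : E5} (hb : ‖b‖ < 1) (x y : S4) :
    ‖(mob b x : E5) - (mob b y : E5)‖ =
      sq b * ‖(x : E5) - (y : E5)‖ / √((1 + ⟪b, (x : E5)⟫_ℝ) * (1 + ⟪b, (y : E5)⟫_ℝ)) := by
  obtain ⟨h1, -, h3, -⟩ := Pool.Agent.FLX.H54.moa_all b hb
  have hx := h1 x
  have hy := h1 y
  have hxy := mul_pos hx hy
  have hb2 : 0 ≤ 1 - ‖b‖ ^ 2 := by nlinarith [norm_nonneg b]
  have hsq : sq b ^ 2 = 1 - ‖b‖ ^ 2 := Real.sq_sqrt hb2
  refine (sq_eq_sq₀ (norm_nonneg _) ?_).1 ?_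
  · exact div_nonneg (mul_nonneg (Real.sqrt_nonneg _) (norm_nonneg _)) (Real.sqrt_nonneg _)
  · rw [norm_sub_sq_S4, h3 x y, div_pow, mul_pow, Real.sq_sqrt hxy.le, hsq, norm_sub_sq_S4]
    ring

theorem lipb : LipbStmt := by
  intro W G hW
  obtain ⟨hW1, hW0, hWG⟩ := hW
  have hG : 0 ≤ G := by
    obtain ⟨x0⟩ : Nonempty S4 := ⟨⟨ee 0, mem_sphere_zero_iff_norm.2 (norm_ee 0)⟩⟩
    have h1 := hWG x0 (ee 0)
    rw [norm_ee, mul_one] at h1
    exact le_trans (abs_nonneg _) h1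
  have hL := sm_log hW1 hW0
  have part1 : ∀ x y : S4, |Real.log (W x) - Real.log (W y)| ≤ 2 * G * ‖(x : E5) - (y : E5)‖ :=
    fun x y => FLX.H59.lip_gen hL hG hWG x y
  refine ⟨part1, fun b hb => ?_⟩
  have hS : Sm (fun x => W (mob b x)) := Pool.Agent.FLX.H54.mos_all.2 b hb W hW1
  have hS0 : ∀ x, 0 < W (mob b x) := fun x => hW0 _
  refine ⟨hS, hS0, fun x v => ?_⟩
  have hpos := (Pool.Agent.FLX.H54.moa_all b hb).1
  have hh := sm_log hS hS0
  have hxx : ⟪(x : E5), (x : E5)⟫_ℝ = 1 := by rw [real_inner_self_eq_norm_sq, S4_norm]; norm_num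
  have hsq0 : 0 ≤ sq b := Real.sqrt_nonneg _
  -- unit tangent vectors
  have unit : ∀ e : E5, ‖e‖ = 1 → ⟪(x : E5), e⟫_ℝ = 0 →
      |dd (fun z => Real.log (W (mob b z))) x e| ≤ 2 * G * sq b / (1 + ⟪b, (x : E5)⟫_ℝ) := by
    intro e he hxe
    have hee : ⟪e, e⟫_ℝ = 1 := by rw [real_inner_self_eq_norm_sq, he]; norm_num
    have hex : ⟪e, (x : E5)⟫_ℝ = 0 := by rw [real_inner_comm]; exact hxe
    obtain ⟨c, hc⟩ : ∃ c : ℝ → E5, ∀ t, c t = Real.cos t • (x : E5) + Real.sin t • e :=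
      ⟨_, fun _ => rfl⟩
    have hc1 : ∀ t, ‖c t‖ = 1 := by
      intro t
      have h1 : ‖c t‖ ^ 2 = 1 := by
        rw [hc, ← real_inner_self_eq_norm_sq, inner_add_left, inner_add_right, inner_add_right,
          real_inner_smul_left, real_inner_smul_left, real_inner_smul_left, real_inner_smul_left,
          inner_smul_right, inner_smul_right, inner_smul_right, inner_smul_right, hxx, hee, hxe, hex]
        have := Real.cos_sq_add_sin_sq t
        linarith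
      have h2 := congrArg Real.sqrt h1
      rwa [Real.sqrt_sq (norm_nonneg _), Real.sqrt_one] at h2
    obtain ⟨pt, hpt⟩ : ∃ pt : ℝ → S4, ∀ t, (pt t : E5) = c t :=
      ⟨fun t => ⟨c t, mem_sphere_zero_iff_norm.2 (hc1 t)⟩, fun _ => rfl⟩
    have hc0 : c 0 = (x : E5) := by rw [hc, Real.cos_zero, Real.sin_zero, one_smul, zero_smul, add_zero]
    have hder : HasDerivAt c e 0 := by
      have h1 := ((Real.hasDerivAt_cos 0).smul_const (x : E5)).add
        ((Real.hasDerivAt_sin 0).smul_const e)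
      rw [Real.sin_zero, Real.cos_zero, neg_zero, zero_smul, one_smul, zero_add] at h1
      exact h1.congr_of_eventuallyEq (Eventually.of_forall hc)
    have hφ : HasDerivAt (fun t => radialExt (fun z => Real.log (W (mob b z))) (c t))
        (dd (fun z => Real.log (W (mob b z))) x e) 0 := hasDerivAt_along hh hc0 hder
    have hval : ∀ t, radialExt (fun z => Real.log (W (mob b z))) (c t) =
        Real.log (W (mob b (pt t))) := by
      intro t
      rw [← hpt t, radialExt_coe]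
    have hval0 : radialExt (fun z => Real.log (W (mob b z))) (c 0) = Real.log (W (mob b x)) := by
      rw [hc0, radialExt_coe]
    -- the distance on the great circle
    have hdist : ∀ t, ‖(pt t : E5) - (x : E5)‖ ≤ |t| := by
      intro t
      have h1 : ‖(pt t : E5) - (x : E5)‖ ^ 2 ≤ |t| ^ 2 := by
        rw [norm_sub_sq_S4, hpt, hc, inner_add_left, real_inner_smul_left, real_inner_smul_left,
          hxx, hex, sq_abs]
        have := Real.one_sub_sq_div_two_le_cos (x := t)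
        linarith
      exact (pow_le_pow_iff_left₀ (norm_nonneg _) (abs_nonneg _) (by norm_num)).1 h1
    have hslope := hφ.tendsto_slope.abs
    have hbt : Tendsto (fun t : ℝ => 2 * G * sq b /
        √((1 + ⟪b, c t⟫_ℝ) * (1 + ⟪b, (x : E5)⟫_ℝ))) (𝓝[≠] 0)
        (𝓝 (2 * G * sq b / (1 + ⟪b, (x : E5)⟫_ℝ))) := by
      have h1 : Tendsto (fun t : ℝ => (1 + ⟪b, c t⟫_ℝ) * (1 + ⟪b, (x : E5)⟫_ℝ)) (𝓝 0)
          (𝓝 ((1 + ⟪b, (x : E5)⟫_ℝ) * (1 + ⟪b, (x : E5)⟫_ℝ))) := by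
        have h2 : Tendsto c (𝓝 0) (𝓝 (x : E5)) := by
          have := hder.continuousAt.tendsto
          rwa [hc0] at this
        have h3 : Tendsto (fun t : ℝ => ⟪b, c t⟫_ℝ) (𝓝 0) (𝓝 ⟪b, (x : E5)⟫_ℝ) :=
          tendsto_const_nhds.inner h2
        exact (h3.const_add 1).mul_const _
      have h4 := h1.sqrt
      rw [Real.sqrt_mul_self (hpos x).le] at h4
      exact (tendsto_const_nhds.div h4 (hpos x).ne').mono_left nhdsWithin_le_nhds
    refine le_of_tendsto_of_tendsto hslope hbt ?_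
    filter_upwards [self_mem_nhdsWithin] with t ht
    have ht0 : t ≠ 0 := ht
    have htp : 0 < |t| := abs_pos.2 ht0
    rw [slope_def_field, sub_zero, abs_div, hval, hval0, div_le_iff₀ htp]
    refine (part1 _ _).trans ?_
    rw [mob_dist hb, hpt t]
    have hnn : 0 ≤ 2 * G * sq b / √((1 + ⟪b, c t⟫_ℝ) * (1 + ⟪b, (x : E5)⟫_ℝ)) :=
      div_nonneg (mul_nonneg (mul_nonneg zero_le_two hG) hsq0) (Real.sqrt_nonneg _)
    calc 2 * G * (sq b * ‖c t - (x : E5)‖ / √((1 + ⟪b, c t⟫_ℝ) * (1 + ⟪b, (x : E5)⟫_ℝ)))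
        = 2 * G * sq b / √((1 + ⟪b, c t⟫_ℝ) * (1 + ⟪b, (x : E5)⟫_ℝ)) * ‖c t - (x : E5)‖ := by ring
      _ ≤ 2 * G * sq b / √((1 + ⟪b, c t⟫_ℝ) * (1 + ⟪b, (x : E5)⟫_ℝ)) * |t| := by
          refine mul_le_mul_of_nonneg_left ?_ hnn
          have := hdist t
          rwa [hpt t] at this
  -- all vectors
  have hB : 0 ≤ 2 * G * sq b / (1 + ⟪b, (x : E5)⟫_ℝ) :=
    div_nonneg (mul_nonneg (mul_nonneg zero_le_two hG) hsq0) (hpos x).le
  obtain ⟨w, hw⟩ : ∃ w : E5, w = v - ⟪(x : E5), v⟫_ℝ • (x : E5) := ⟨_, rfl⟩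
  have hxw : ⟪(x : E5), w⟫_ℝ = 0 := by
    rw [hw, inner_sub_right, inner_smul_right, hxx]
    ring
  have hdw : dd (fun z => Real.log (W (mob b z))) x v =
      dd (fun z => Real.log (W (mob b z))) x w := by
    rw [hw, dd_sub, dd_smul, dd_self hh, mul_zero, sub_zero]
  have hwv : ‖w‖ ≤ ‖v‖ := by
    have h1 : ‖w‖ ^ 2 ≤ ‖v‖ ^ 2 := by
      rw [← real_inner_self_eq_norm_sq w]
      nth_rw 2 [hw]
      rw [inner_sub_right, inner_smul_right, real_inner_comm (x : E5) w, hxw, hw,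
        inner_sub_left, real_inner_smul_left, real_inner_self_eq_norm_sq]
      nlinarith [sq_nonneg ⟪(x : E5), v⟫_ℝ]
    exact (pow_le_pow_iff_left₀ (norm_nonneg _) (norm_nonneg _) (by norm_num)).1 h1
  unfold dlog
  rw [hdw]
  by_cases hw0 : ‖w‖ = 0
  · rw [norm_eq_zero.1 hw0, dd_zero, abs_zero]
    exact mul_nonneg hB (norm_nonneg _)
  · have h1 : ‖(‖w‖⁻¹ • w)‖ = 1 := by rw [norm_smul, norm_inv, norm_norm, inv_mul_cancel₀ hw0]
    have h2 : ⟪(x : E5), ‖w‖⁻¹ • w⟫_ℝ = 0 := by rw [inner_smul_right, hxw, mul_zero]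
    have h3 := unit _ h1 h2
    have h4 : dd (fun z => Real.log (W (mob b z))) x w =
        ‖w‖ * dd (fun z => Real.log (W (mob b z))) x (‖w‖⁻¹ • w) := by
      rw [← dd_smul, smul_smul, mul_inv_cancel₀ hw0, one_smul]
    rw [h4, abs_mul, abs_of_nonneg (norm_nonneg w), mul_comm]
    exact mul_le_mul h3 hwv (norm_nonneg _) hB

end Pool.Agent.PQP.H20
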